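import Mathlib

/-!
# MP_6a5936_nt: the largest pre-period of the cyclic sum map modulo m
-/

namespace Pool.Agent.Results.MP_6a5936_nt.NmaxFormula

open Polynomial

/-- The cyclic sum map `(a_0, ..., a_{n-1}) ↦ (a_0 + a_1, ..., a_{n-1} + a_0)` on `(ℤ/m)^n`. -/
def T {m n : ℕ} [NeZero n] (a : Fin n → ZMod m) : Fin n → ZMod m := fun i => a i + a (i + 1)

/-- The cycle length `P(a)`: the least positive `P` such that for some positive `N`
`T^{k+P} a = T^k a` for all `k ≥ N`. -/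
noncomputable def cycleLength {m n : ℕ} [NeZero n] (a : Fin n → ZMod m) : ℕ :=
  sInf {P | 0 < P ∧ ∃ N, 0 < N ∧ ∀ k, N ≤ k → T^[k + P] a = T^[k] a}

/-- The pre-period `N(a)`: the least positive `N` with `T^{k+P(a)} a = T^k a` for all `k ≥ N`. -/
noncomputable def prePeriod {m n : ℕ} [NeZero n] (a : Fin n → ZMod m) : ℕ :=
  sInf {N | 0 < N ∧ ∀ k, N ≤ k → T^[k + cycleLength a] a = T^[k] a}

/-- The contribution of the prime power `p^e ∥ m`. -/
def primeTerm (n p e : ℕ) : ℕ :=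
  if Even n ∧ p ∣ n then p ^ (padicValNat p n - 1) * (e * (p - 1) + 1)
  else if p = 2 then e
  else 1

/-- The value of `N_max(m,n)`. -/
def Nmax (m n : ℕ) : ℕ := max 1 (m.primeFactors.sup fun p => primeTerm n p (m.factorization p))

/-! ### Two lemmas in commutative rings -/

section ring

variable {R : Type*} [CommRing R]

lemma dvd_choose_sq {p j k : ℕ} (hp : p.Prime) (hk0 : k ≠ 0) (hk : k < p ^ j) :
    p ^ 2 ∣ (p ^ (j + 1)).choose k := by
  have hkq : k ≤ p ^ (j + 1) := hk.le.trans (Nat.pow_le_pow_right hp.pos (Nat.le_succ j))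
  have h1 := Nat.factorization_choose_prime_pow_add_factorization (p := p) (n := j + 1) (k := k) hp hkq hk0
  have h2 : k.factorization p < j := by
    have h3 : p ^ k.factorization p ≤ k := Nat.le_of_dvd (Nat.pos_of_ne_zero hk0) (Nat.ordProj_dvd k p)
    exact (Nat.pow_lt_pow_iff_right hp.one_lt).1 (lt_of_le_of_lt h3 hk)
  have h4 : 2 ≤ ((p ^ (j + 1)).choose k).factorization p := by omega
  have h5 : (p ^ (j + 1)).choose k ≠ 0 := (Nat.choose_pos hkq).ne'
  exact (hp.pow_dvd_iff_le_factorization h5).2 h4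

lemma dvd_choose_one {p j k : ℕ} (hp : p.Prime) (hk0 : k ≠ 0) (hk : k < p ^ (j + 1)) :
    p ∣ (p ^ (j + 1)).choose k := hp.dvd_choose_pow hk0 hk.ne

/-- expansion of the relation `(1+z)^q = 1`. -/
lemma rel {q : ℕ} (hq : 0 < q) (z : R) (hz : (1 + z) ^ q = 1) :
    z ^ q = - ∑ k ∈ Finset.Ico 1 q, ((q.choose k : ℕ) : R) * z ^ k := by
  have h1 : (1 + z) ^ q = ∑ k ∈ Finset.range (q + 1), ((q.choose k : ℕ) : R) * z ^ k := by
    rw [add_comm, add_pow]
    refine Finset.sum_congr rfl fun k _ => ?_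
    rw [one_pow]; ring
  rw [hz, Finset.sum_range_succ, Nat.choose_self, Finset.range_eq_Ico,
    Finset.sum_eq_sum_Ico_succ_bot hq] at h1
  simp only [Nat.choose_zero_right, Nat.cast_one, pow_zero, mul_one, one_mul, zero_add] at h1
  linear_combination -h1

lemma upper {p j : ℕ} (hp : p.Prime) (z : R) (hz : (1 + z) ^ (p ^ (j + 1)) = 1) :
    ∀ e M : ℕ, p ^ j + e * (p ^ j * (p - 1)) ≤ M → (p : R) ^ e ∣ z ^ M := by
  have hu : 0 < p ^ j := pow_pos hp.pos j
  have hq : p ^ (j + 1) = p ^ j + p ^ j * (p - 1) := by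
    obtain ⟨s, rfl⟩ : ∃ s, p = s + 1 := ⟨p - 1, by have := hp.pos; omega⟩
    rw [pow_succ]; simp; ring
  have hup : p ^ j ≤ p ^ j * (p - 1) := Nat.le_mul_of_pos_right _ (by have := hp.two_le; omega)
  have hq0 : 0 < p ^ (j + 1) := pow_pos hp.pos _
  intro e
  induction e using Nat.strong_induction_on with
  | _ e ih =>
    rcases Nat.eq_zero_or_pos e with h0 | h0
    · intro M _; subst h0; simp
    · obtain ⟨e, rfl⟩ : ∃ e', e = e' + 1 := ⟨e - 1, by omega⟩
      intro M hM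
      have hM' : p ^ (j + 1) + e * (p ^ j * (p - 1)) ≤ M := by rw [hq]; linarith [hM, Nat.add_one_mul e (p ^ j * (p - 1))]
      refine dvd_trans ?_ (pow_dvd_pow z hM')
      rw [pow_add z, rel hq0 z hz, neg_mul, dvd_neg, Finset.sum_mul]
      refine Finset.dvd_sum fun k hk => ?_
      rw [Finset.mem_Ico] at hk
      rw [mul_assoc, ← pow_add]
      rcases lt_or_ge k (p ^ j) with hk2 | hk2
      · rcases Nat.eq_zero_or_pos e with he | he
        · subst he
          rw [zero_add, pow_one]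
          exact Dvd.dvd.mul_right (by exact_mod_cast Nat.cast_dvd_cast (α := R) (dvd_choose_one hp (by omega) hk.2)) _
        · obtain ⟨e, rfl⟩ : ∃ e', e = e' + 1 := ⟨e - 1, by omega⟩
          have h1 : (p : R) ^ 2 ∣ (((p ^ (j + 1)).choose k : ℕ) : R) := by
            exact_mod_cast Nat.cast_dvd_cast (α := R) (dvd_choose_sq hp (by omega) hk2)
          have h2 : (p : R) ^ e ∣ z ^ (k + (e + 1) * (p ^ j * (p - 1))) := by
            refine ih e (by omega) _ ?_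
            rw [Nat.add_one_mul]; omega
          rw [show e + 1 + 1 = 2 + e by ring, pow_add (p : R)]
          exact mul_dvd_mul h1 h2
      · have h1 : (p : R) ∣ (((p ^ (j + 1)).choose k : ℕ) : R) := by
          exact_mod_cast Nat.cast_dvd_cast (α := R) (dvd_choose_one hp (by omega) hk.2)
        have h2 : (p : R) ^ e ∣ z ^ (k + e * (p ^ j * (p - 1))) := ih e (by omega) _ (by omega)
        rw [pow_succ' (p : R)]
        exact mul_dvd_mul h1 h2

lemma lower {p j : ℕ} (hp : p.Prime) (z : R) (hz : (1 + z) ^ (p ^ (j + 1)) = 1) {c : ℕ}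
    (hc : (p ^ (j + 1)).choose (p ^ j) = p * c) :
    ∀ e : ℕ, (p : R) ^ (e + 1) ∣ z ^ (p ^ j + (e + 1) * (p ^ j * (p - 1)) - 1)
      - (-(c : R)) ^ e * (p : R) ^ e * z ^ (p ^ (j + 1) - 1) := by
  have hu : 0 < p ^ j := pow_pos hp.pos j
  have hq : p ^ (j + 1) = p ^ j + p ^ j * (p - 1) := by
    obtain ⟨s, rfl⟩ : ∃ s, p = s + 1 := ⟨p - 1, by have := hp.pos; omega⟩
    rw [pow_succ]; simp; ring
  have hup : p ^ j ≤ p ^ j * (p - 1) := Nat.le_mul_of_pos_right _ (by have := hp.two_le; omega)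
  have hq0 : 0 < p ^ (j + 1) := pow_pos hp.pos _
  have huq : p ^ j < p ^ (j + 1) := by omega
  intro e
  induction e with
  | zero =>
    have : p ^ j + (0 + 1) * (p ^ j * (p - 1)) - 1 = p ^ (j + 1) - 1 := by rw [hq]; simp
    rw [this]; simp
  | succ e ih =>
    have h0 : 0 < (e + 1) * (p ^ j * (p - 1)) := Nat.mul_pos (Nat.succ_pos e) (lt_of_lt_of_le hu hup)
    have h1 : p ^ j + (e + 1 + 1) * (p ^ j * (p - 1)) - 1 = p ^ (j + 1) + ((e + 1) * (p ^ j * (p - 1)) - 1) := by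
      rw [hq, Nat.add_one_mul (e + 1)]; omega
    rw [h1, pow_add z, rel hq0 z hz, neg_mul, Finset.sum_mul,
      ← Finset.add_sum_erase (Finset.Ico 1 (p ^ (j + 1))) _ (show p ^ j ∈ Finset.Ico 1 (p ^ (j + 1)) by
        rw [Finset.mem_Ico]; exact ⟨hu, huq⟩)]
    have h2 : (p : R) ^ (e + 1 + 1) ∣ ∑ k ∈ (Finset.Ico 1 (p ^ (j + 1))).erase (p ^ j),
        ((((p ^ (j + 1)).choose k : ℕ) : R) * z ^ k) * z ^ ((e + 1) * (p ^ j * (p - 1)) - 1) := by
      refine Finset.dvd_sum fun k hk => ?_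
      rw [Finset.mem_erase, Finset.mem_Ico] at hk
      obtain ⟨hk1, hk2, hk3⟩ := hk
      rw [mul_assoc, ← pow_add]
      rcases lt_or_ge k (p ^ j) with hk4 | hk4
      · have h3 : (p : R) ^ 2 ∣ (((p ^ (j + 1)).choose k : ℕ) : R) := by
          exact_mod_cast Nat.cast_dvd_cast (α := R) (dvd_choose_sq hp (by omega) hk4)
        have h4 : (p : R) ^ e ∣ z ^ (k + ((e + 1) * (p ^ j * (p - 1)) - 1)) := by
          refine upper hp z hz e _ ?_
          rw [Nat.add_one_mul]; omega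
        rw [show e + 1 + 1 = 2 + e by ring, pow_add (p : R)]
        exact mul_dvd_mul h3 h4
      · have h3 : (p : R) ∣ (((p ^ (j + 1)).choose k : ℕ) : R) := by
          exact_mod_cast Nat.cast_dvd_cast (α := R) (dvd_choose_one hp (by omega) hk3)
        have h4 : (p : R) ^ (e + 1) ∣ z ^ (k + ((e + 1) * (p ^ j * (p - 1)) - 1)) :=
          upper hp z hz (e + 1) _ (by omega)
        rw [pow_succ' (p : R) (e + 1)]
        exact mul_dvd_mul h3 h4
    obtain ⟨r, hr⟩ := ih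
    obtain ⟨s, hs⟩ := h2
    rw [hs]
    have h5 : z ^ p ^ j * z ^ ((e + 1) * (p ^ j * (p - 1)) - 1) = z ^ (p ^ j + (e + 1) * (p ^ j * (p - 1)) - 1) := by
      rw [← pow_add]; congr 1; omega
    have hc' : ((((p ^ (j + 1)).choose (p ^ j) : ℕ)) : R) = p * c := by exact_mod_cast congrArg (Nat.cast (R := R)) hc
    rw [hc', mul_assoc ((p : R) * c), h5]
    refine ⟨-(c : R) * r - s, ?_⟩
    have h6 : z ^ (p ^ j + (e + 1) * (p ^ j * (p - 1)) - 1)
      = (-(c : R)) ^ e * (p : R) ^ e * z ^ (p ^ (j + 1) - 1) + (p : R) ^ (e + 1) * r := by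
      linear_combination hr
    rw [h6]
    ring

end ring

/-! ### The action of `ℤ[X]` on `(ℤ/m)^n` -/

section action

variable {m n : ℕ} [NeZero n]

/-- the shift -/
def S (m n : ℕ) [NeZero n] : Module.End ℤ (Fin n → ZMod m) where
  toFun a := fun i => a (i + 1)
  map_add' _ _ := rfl
  map_smul' _ _ := rfl

lemma S_apply (a : Fin n → ZMod m) (i : Fin n) : S m n a i = a (i + 1) := rfl

lemma ofNat_add_one (k : ℕ) (i : Fin n) : Fin.ofNat n ((i + 1 : Fin n).val + k) = Fin.ofNat n (i.val + (k + 1)) := by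
  apply Fin.ext
  rw [Fin.val_ofNat, Fin.val_ofNat, Fin.val_add, Fin.val_one', Nat.mod_add_mod]
  rw [show (i : ℕ) + 1 % n + k = 1 % n + (i + k) by ring, Nat.mod_add_mod]
  congr 1; ring

lemma S_pow_apply (k : ℕ) (a : Fin n → ZMod m) (i : Fin n) : ((S m n) ^ k) a i = a (Fin.ofNat n (i.val + k)) := by
  induction k generalizing i with
  | zero =>
    rw [pow_zero, Module.End.one_apply]
    congr 1
    apply Fin.ext
    rw [Fin.val_ofNat, add_zero, Nat.mod_eq_of_lt i.isLt]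
  | succ k ih =>
    rw [pow_succ', Module.End.mul_apply, S_apply, ih, ofNat_add_one]

lemma S_pow_n : (S m n) ^ n = 1 := by
  refine LinearMap.ext fun a => funext fun i => ?_
  rw [S_pow_apply, Module.End.one_apply]
  congr 1
  apply Fin.ext
  rw [Fin.val_ofNat, Nat.add_mod_right, Nat.mod_eq_of_lt i.isLt]

lemma T_eq (a : Fin n → ZMod m) : T a = aeval (S m n) (X + 1 : ℤ[X]) a := by
  ext i
  simp [T, S_apply, add_comm]

lemma T_iter (k : ℕ) (a : Fin n → ZMod m) : T^[k] a = aeval (S m n) ((X + 1 : ℤ[X]) ^ k) a := by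
  induction k generalizing a with
  | zero => simp
  | succ k ih =>
    rw [Function.iterate_succ_apply', ih, T_eq, pow_succ', map_mul, Module.End.mul_apply]

/-- the annihilator of a vector -/
def ann (b : Fin n → ZMod m) : Ideal ℤ[X] where
  carrier := {f | aeval (S m n) f b = 0}
  add_mem' {f g} hf hg := by
    simp only [Set.mem_ofPred_eq] at *
    rw [map_add, LinearMap.add_apply, hf, hg, add_zero]
  zero_mem' := by simp
  smul_mem' f g hg := by
    simp only [Set.mem_ofPred_eq, smul_eq_mul] at *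
    rw [map_mul, Module.End.mul_apply, hg, map_zero]

lemma mem_ann {b : Fin n → ZMod m} {f : ℤ[X]} : f ∈ ann b ↔ aeval (S m n) f b = 0 := Iff.rfl

lemma Xn_mem_ann (b : Fin n → ZMod m) : (X ^ n - 1 : ℤ[X]) ∈ ann b := by
  rw [mem_ann]
  simp [S_pow_n]

lemma intCast_mem_ann {b : Fin n → ZMod m} {c : ℤ} : ((c : ℤ) : ℤ[X]) ∈ ann b ↔ c • b = 0 := by
  rw [mem_ann, ← Polynomial.C_eq_intCast (R := ℤ), aeval_C]
  simp

lemma gmem {b : Fin n → ZMod m} {g h : ℤ[X]} {p e K : ℕ} (hgh : h * g ∈ ann b)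
    (hpe : ((p : ℤ) : ℤ[X]) ^ e ∈ ann b) (hK : (X + 1 : ℤ[X]) ^ K ∈ ann b)
    (hcop : IsCoprime (h.eval (-1)) (p : ℤ)) : g ∈ ann b := by
  obtain ⟨s, t, hst⟩ := hcop
  obtain ⟨h1, hh1⟩ := Polynomial.X_sub_C_dvd_sub_C_eval (a := (-1 : ℤ)) (p := h)
  have hrad1 : ((p : ℤ) : ℤ[X]) ∈ (ann b).radical := ⟨e, hpe⟩
  have hrad2 : (X + 1 : ℤ[X]) ∈ (ann b).radical := ⟨K, hK⟩
  have hw : (C t * ((p : ℤ) : ℤ[X]) - C s * h1 * (X + 1)) ∈ (ann b).radical :=
    Ideal.sub_mem _ (Ideal.mul_mem_left _ _ hrad1) (Ideal.mul_mem_left _ _ hrad2)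
  obtain ⟨L, hL⟩ := hw
  set w := C t * ((p : ℤ) : ℤ[X]) - C s * h1 * (X + 1) with hwdef
  have e1 : C s * h = 1 - w := by
    have e2 : (C s * C (h.eval (-1)) + C t * C (p : ℤ) : ℤ[X]) = 1 := by
      rw [← C_mul, ← C_mul, ← C_add, hst, C_1]
    have e3 : (C (-1 : ℤ) : ℤ[X]) = -1 := by simp
    have e4 : (C (p : ℤ) : ℤ[X]) = ((p : ℤ) : ℤ[X]) := by simp
    rw [e3] at hh1
    rw [e4] at e2
    rw [hwdef]
    linear_combination C s * hh1 + e2
  have e5 : g = (C s * ∑ i ∈ Finset.range L, w ^ i) * (h * g) + g * w ^ L := by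
    have e6 := mul_neg_geom_sum w L
    linear_combination (-(∑ i ∈ Finset.range L, w ^ i) * g) * e1 - g * e6
  rw [e5]
  exact Ideal.add_mem _ (Ideal.mul_mem_left _ _ hgh) (Ideal.mul_mem_left _ _ hL)

/-- the polynomial `(X^(q n') - 1)/(X^q - (-1)^q)`. -/
noncomputable def hpol (q n' : ℕ) : ℤ[X] :=
  ∑ i ∈ Finset.range n', (X ^ q) ^ i * ((-1 : ℤ[X]) ^ q) ^ (n' - 1 - i)

lemma hpol_mul {q n' : ℕ} (h : Even (q * n')) : hpol q n' * (X ^ q - (-1) ^ q) = X ^ (q * n') - 1 := by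
  rw [hpol, (Commute.all _ _).geom_sum₂_mul, ← pow_mul, ← pow_mul, h.neg_one_pow]

lemma hpol_eval (q n' : ℕ) : (hpol q n').eval (-1) = n' * ((-1) ^ q) ^ (n' - 1) := by
  rw [hpol, eval_finsetSum]
  have : ∀ i ∈ Finset.range n', eval (-1 : ℤ) ((X ^ q) ^ i * ((-1 : ℤ[X]) ^ q) ^ (n' - 1 - i)) = ((-1) ^ q) ^ (n' - 1) := by
    intro i hi
    rw [Finset.mem_range] at hi
    simp only [eval_mul, eval_pow, eval_X, eval_neg, eval_one]
    rw [← pow_add]
    congr 1
    omega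
  rw [Finset.sum_congr rfl this]
  simp

lemma coprime_sign {a p k : ℕ} (h : Nat.Coprime a p) : IsCoprime ((a : ℤ) * ((-1) ^ k)) (p : ℤ) := by
  have h1 : IsCoprime (a : ℤ) (p : ℤ) := Nat.isCoprime_iff_coprime.2 h
  rcases neg_one_pow_eq_or ℤ k with h2 | h2
  · rw [h2, mul_one]; exact h1
  · rw [h2, mul_neg_one]; exact h1.neg_left

/-- `X^q - (-1)^q` annihilates -/
lemma g_mem {b : Fin n → ZMod m} {p e K q n' : ℕ} (hn : n = q * n') (hev : Even n)
    (hcop : Nat.Coprime n' p) (hpe : ((p : ℤ) : ℤ[X]) ^ e ∈ ann b) (hK : (X + 1 : ℤ[X]) ^ K ∈ ann b) :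
    (X ^ q - (-1) ^ q : ℤ[X]) ∈ ann b := by
  refine gmem (h := hpol q n') ?_ hpe hK ?_
  · rw [hpol_mul (hn ▸ hev), ← hn]
    exact Xn_mem_ann b
  · rw [hpol_eval, ← pow_mul]
    exact coprime_sign hcop

/-- the basic relation in the quotient ring -/
lemma quot_rel {b : Fin n → ZMod m} {q : ℕ} (hg : (X ^ q - (-1) ^ q : ℤ[X]) ∈ ann b) :
    (1 + Ideal.Quotient.mk (ann b) (-(X + 1))) ^ q = 1 := by
  have h1 : Ideal.Quotient.mk (ann b) (X ^ q - (-1) ^ q) = 0 := Ideal.Quotient.eq_zero_iff_mem.2 hg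
  rw [← map_one (Ideal.Quotient.mk (ann b)), ← map_add, ← map_pow, ← sub_eq_zero, ← map_sub]
  rw [Ideal.Quotient.eq_zero_iff_mem]
  have h2 : ((1 + -(X + 1)) ^ q - 1 : ℤ[X]) = (-1) ^ q * (X ^ q - (-1) ^ q) := by
    rw [show (1 + -(X + 1) : ℤ[X]) = (-1) * X by ring, mul_pow, mul_sub, ← pow_add, (Even.add_self q).neg_one_pow]
  rw [h2]
  exact Ideal.mul_mem_left _ _ hg

lemma quot_neg_pow {b : Fin n → ZMod m} {N : ℕ} :
    Ideal.Quotient.mk (ann b) (-(X + 1)) ^ N = 0 ↔ (X + 1 : ℤ[X]) ^ N ∈ ann b := by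
  rw [← map_pow, Ideal.Quotient.eq_zero_iff_mem, neg_pow]
  constructor
  · intro h
    have := Ideal.mul_mem_left _ ((-1) ^ N) h
    rwa [← mul_assoc, ← pow_add, (Even.add_self N).neg_one_pow, one_mul] at this
  · intro h
    exact Ideal.mul_mem_left _ _ h

lemma quot_p {b : Fin n → ZMod m} {p e : ℕ} (hpe : ((p : ℤ) : ℤ[X]) ^ e ∈ ann b) :
    ((p : ℕ) : ℤ[X] ⧸ ann b) ^ e = 0 := by
  have h1 : Ideal.Quotient.mk (ann b) (((p : ℤ) : ℤ[X]) ^ e) = 0 := Ideal.Quotient.eq_zero_iff_mem.2 hpe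
  rw [map_pow] at h1
  simpa using h1

lemma step_upper {b : Fin n → ZMod m} {p e j : ℕ} (hp : p.Prime)
    (hpe : ((p : ℤ) : ℤ[X]) ^ e ∈ ann b) (hg : (X ^ (p ^ (j + 1)) - (-1) ^ (p ^ (j + 1)) : ℤ[X]) ∈ ann b) :
    (X + 1 : ℤ[X]) ^ (p ^ j + e * (p ^ j * (p - 1))) ∈ ann b := by
  rw [← quot_neg_pow]
  have h1 := upper hp _ (quot_rel hg) e _ le_rfl
  rw [quot_p hpe] at h1
  exact zero_dvd_iff.1 h1

lemma primeTerm_even {n p e j : ℕ} (hn : Even n) (hpn : p ∣ n) (hj : padicValNat p n = j + 1) :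
    primeTerm n p e = p ^ j + e * (p ^ j * (p - 1)) := by
  rw [primeTerm, if_pos ⟨hn, hpn⟩, hj, Nat.add_sub_cancel]
  ring

lemma exists_decomp {n p : ℕ} (hn : n ≠ 0) (hp : p.Prime) (hpn : p ∣ n) :
    ∃ j n', padicValNat p n = j + 1 ∧ n = p ^ (j + 1) * n' ∧ Nat.Coprime n' p := by
  have := Fact.mk hp
  have h1 : padicValNat p n ≠ 0 := by
    have := one_le_padicValNat_of_dvd hn hpn
    omega
  obtain ⟨j, hj⟩ := Nat.exists_eq_succ_of_ne_zero h1
  refine ⟨j, n / p ^ (n.factorization p), hj, ?_, (Nat.coprime_ordCompl hp hn).symm⟩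
  have h2 : n.factorization p = j + 1 := by rw [Nat.factorization_def n hp, hj]
  rw [← h2]
  exact (Nat.ordProj_mul_ordCompl_eq_self n p).symm

lemma upper_all {b : Fin n → ZMod m} {p e K : ℕ} (hp : p.Prime)
    (hpe : ((p : ℤ) : ℤ[X]) ^ e ∈ ann b) (hK : (X + 1 : ℤ[X]) ^ K ∈ ann b) :
    (X + 1 : ℤ[X]) ^ (primeTerm n p e) ∈ ann b := by
  have hn0 : n ≠ 0 := NeZero.ne n
  by_cases h1 : Even n ∧ p ∣ n
  · obtain ⟨j, n', hj, hn', hcop⟩ := exists_decomp hn0 hp h1.2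
    rw [primeTerm_even h1.1 h1.2 hj]
    exact step_upper hp hpe (g_mem hn' h1.1 hcop hpe hK)
  · rw [primeTerm, if_neg h1]
    rcases Nat.even_or_odd n with hev | hodd
    · -- p odd, p ∤ n
      have hpn : ¬ p ∣ n := fun h => h1 ⟨hev, h⟩
      have hp2 : p ≠ 2 := fun h => hpn (h ▸ hev.two_dvd)
      rw [if_neg hp2, pow_one]
      have h2 := g_mem (q := 1) (n' := n) (by simp) hev ((Nat.Prime.coprime_iff_not_dvd hp).2 hpn).symm hpe hK
      simpa using h2
    · by_cases hp2 : p = 2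
      · rw [if_pos hp2]
        subst hp2
        have h2 : (X - 1 : ℤ[X]) ∈ ann b := by
          refine gmem (h := ∑ i ∈ Finset.range n, X ^ i) ?_ hpe hK ?_
          · rw [geom_sum_mul]; exact Xn_mem_ann b
          · have h3 : (∑ i ∈ Finset.range n, (X : ℤ[X]) ^ i).eval (-1) = 1 := by
              rw [eval_finsetSum]
              simp only [eval_pow, eval_X]
              rw [neg_one_geom_sum, if_neg (Nat.not_even_iff_odd.2 hodd)]
            rw [h3]
            exact isCoprime_one_left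
        have h3 : (X - 1 : ℤ[X]) ∣ (X + 1) ^ e - 2 ^ e := by
          have := sub_dvd_pow_sub_pow (X + 1 : ℤ[X]) 2 e
          rwa [show (X + 1 - 2 : ℤ[X]) = X - 1 by ring] at this
        have h4 : (X + 1 : ℤ[X]) ^ e = ((X + 1) ^ e - 2 ^ e) + ((((2 : ℕ) : ℤ)) : ℤ[X]) ^ e := by
          push_cast; ring
        rw [h4]
        exact Ideal.add_mem _ (Ideal.mem_of_dvd _ h3 h2) hpe
      · rw [if_neg hp2]
        have h2 : (1 : ℤ[X]) ∈ ann b := by
          refine gmem (h := X ^ n - 1) ?_ hpe hK ?_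
          · rw [mul_one]; exact Xn_mem_ann b
          · simp only [eval_sub, eval_pow, eval_X, eval_one]
            rw [hodd.neg_one_pow]
            have : Nat.Coprime 2 p := (Nat.coprime_primes Nat.prime_two hp).2 (Ne.symm hp2)
            have h5 : IsCoprime ((2 : ℕ) : ℤ) (p : ℤ) := Nat.isCoprime_iff_coprime.2 this
            have h6 := h5.neg_left
            norm_num at h6 ⊢
            exact h6
        have := Ideal.mul_mem_left (ann b) ((X + 1) ^ 1) h2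
        rwa [mul_one] at this

lemma zsmul_mem_ann {b : Fin n → ZMod m} {f : ℤ[X]} (c : ℤ) : f ∈ ann (c • b) ↔ (c : ℤ[X]) * f ∈ ann b := by
  rw [mem_ann, mem_ann, map_zsmul, map_mul, Module.End.mul_apply, ← Polynomial.C_eq_intCast (R := ℤ), aeval_C]
  simp

omit [NeZero n] in
lemma primeTerm_le {p : ℕ} (hp : p ∈ m.primeFactors) : primeTerm n p (m.factorization p) ≤ Nmax m n :=
  le_trans (Finset.le_sup (f := fun p => primeTerm n p (m.factorization p)) hp) (le_max_right _ _)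

omit [NeZero n] in
lemma m_zsmul (b : Fin n → ZMod m) : ((m : ℕ) : ℤ) • b = 0 := by
  ext i
  simp

/-- Kernel stabilisation. -/
lemma global_upper (hm : 0 < m) {b : Fin n → ZMod m} {K : ℕ} (hK : (X + 1 : ℤ[X]) ^ K ∈ ann b) :
    (X + 1 : ℤ[X]) ^ (Nmax m n) ∈ ann b := by
  rw [mem_ann]
  set x := aeval (S m n) ((X + 1 : ℤ[X]) ^ (Nmax m n)) b with hx
  by_contra hne
  have h1 : addOrderOf x ≠ 1 := by
    intro h
    exact hne (AddMonoid.addOrderOf_eq_one_iff.1 h)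
  obtain ⟨p, hp, hpd⟩ := Nat.exists_prime_and_dvd h1
  have h2 : addOrderOf x ∣ m := by
    rw [addOrderOf_dvd_iff_nsmul_eq_zero]
    simp
  have hpm : p ∣ m := hpd.trans h2
  have hpf : p ∈ m.primeFactors := Nat.mem_primeFactors.2 ⟨hp, hpm, hm.ne'⟩
  set e := m.factorization p with he
  obtain ⟨d, hd⟩ : ∃ d, d = m / p ^ e := ⟨_, rfl⟩
  set b' := ((d : ℕ) : ℤ) • b with hb'
  have h3 : ((p : ℤ) : ℤ[X]) ^ e ∈ ann b' := by
    rw [hb', zsmul_mem_ann]
    have h4 : ((((d : ℕ) : ℤ)) : ℤ[X]) * ((p : ℤ) : ℤ[X]) ^ e = (((m : ℕ) : ℤ) : ℤ[X]) := by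
      have := Nat.ordProj_mul_ordCompl_eq_self m p
      have h5 : d * p ^ e = m := by rw [mul_comm, hd]; exact this
      exact_mod_cast congrArg (Nat.cast (R := ℤ[X])) h5
    rw [h4, intCast_mem_ann]
    exact m_zsmul b
  have h6 : (X + 1 : ℤ[X]) ^ K ∈ ann b' := by
    rw [hb', zsmul_mem_ann]
    exact Ideal.mul_mem_left _ _ hK
  have h7 := upper_all hp h3 h6
  have h8 : (X + 1 : ℤ[X]) ^ (Nmax m n) ∈ ann b' :=
    Ideal.mem_of_dvd _ (pow_dvd_pow _ (primeTerm_le hpf)) h7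
  rw [hb', mem_ann, map_zsmul, ← hx] at h8
  have h9 : addOrderOf x ∣ m / p ^ e := by
    rw [← hd, addOrderOf_dvd_iff_nsmul_eq_zero]
    simpa using h8
  exact Nat.not_dvd_ordCompl hp hm.ne' (hpd.trans h9)

/-- the first basis vector -/
def e0 (m n : ℕ) [NeZero n] : Fin n → ZMod m := fun i => if i.val = 0 then 1 else 0

lemma aeval_e0 {F : ℤ[X]} (hF : F.natDegree < n) (h2 : 2 ≤ n) :
    aeval (S m n) F (e0 m n) (Fin.ofNat n 1) = (F.coeff (n - 1) : ZMod m) := by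
  rw [aeval_eq_sum_range' hF, LinearMap.sum_apply, Finset.sum_apply, Finset.sum_eq_single (n - 1)]
  · rw [LinearMap.smul_apply, Pi.smul_apply, S_pow_apply]
    have : (Fin.ofNat n ((Fin.ofNat n 1 : Fin n).val + (n - 1))).val = 0 := by
      rw [Fin.val_ofNat, Fin.val_ofNat, Nat.mod_add_mod, show 1 + (n - 1) = n by omega, Nat.mod_self]
    rw [e0, if_pos this]
    simp
  · intro k hk hkn
    rw [Finset.mem_range] at hk
    rw [LinearMap.smul_apply, Pi.smul_apply, S_pow_apply]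
    have : (Fin.ofNat n ((Fin.ofNat n 1 : Fin n).val + k)).val ≠ 0 := by
      rw [Fin.val_ofNat, Fin.val_ofNat, Nat.mod_add_mod, Nat.mod_eq_of_lt (by omega)]
      omega
    rw [e0, if_neg this, smul_zero]
  · intro h
    exact absurd (Finset.mem_range.2 (by omega)) h

lemma hpol_monic {q n' : ℕ} (hq : 0 < q) (h : Even (q * n')) (hn' : 0 < n') : (hpol q n').Monic := by
  have h1 : (X ^ q - (-1) ^ q : ℤ[X]).Monic := by
    have h0 : ((-1) ^ q : ℤ[X]) = C ((-1) ^ q) := by simp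
    rw [h0]
    exact monic_X_pow_sub_C _ hq.ne'
  have h2 : (X ^ (q * n') - 1 : ℤ[X]).Monic := by
    have := monic_X_pow_sub_C (1 : ℤ) (n := q * n') (Nat.mul_pos hq hn').ne'
    simpa using this
  rw [← hpol_mul h] at h2
  exact Monic.of_mul_monic_right h1 h2

lemma hpol_natDegree {q n' : ℕ} (hq : 0 < q) (h : Even (q * n')) (hn' : 0 < n') :
    (hpol q n').natDegree + q = q * n' := by
  have h0 : ((-1) ^ q : ℤ[X]) = C ((-1) ^ q) := by simp
  have h1 : (X ^ q - (-1) ^ q : ℤ[X]).Monic := by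
    rw [h0]
    exact monic_X_pow_sub_C _ hq.ne'
  have h2 := (hpol_monic hq h hn').natDegree_mul h1
  rw [hpol_mul h, h0, natDegree_X_pow_sub_C] at h2
  have h3 : (X ^ (q * n') - 1 : ℤ[X]).natDegree = q * n' := by
    have := natDegree_X_pow_sub_C (n := q * n') (r := (1 : ℤ))
    simpa using this
  rw [h3] at h2
  exact h2.symm

lemma natCast_ne_zero {m p e c d : ℕ} (hm : 0 < m) (hp : p.Prime) (he : m.factorization p = e + 1) (hc : ¬ p ∣ c)
    (hd : d = m / p ^ (e + 1)) :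
    ((c ^ e * p ^ e * d : ℕ) : ZMod m) ≠ 0 := by
  intro h
  rw [ZMod.natCast_eq_zero_iff, hd] at h
  have h1 : p ^ (e + 1) * (m / p ^ (e + 1)) = m := by rw [← he]; exact Nat.ordProj_mul_ordCompl_eq_self m p
  have h2 : 0 < m / p ^ (e + 1) := by
    rcases Nat.eq_zero_or_pos (m / p ^ (e + 1)) with h3 | h3
    · rw [h3, mul_zero] at h1; omega
    · exact h3
  have h3 : p ^ (e + 1) * (m / p ^ (e + 1)) ∣ c ^ e * p ^ e * (m / p ^ (e + 1)) := by rw [h1]; exact h
  have h4 := Nat.dvd_of_mul_dvd_mul_right h2 h3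
  have h5 : p ^ e * p ∣ p ^ e * c ^ e := by rw [← pow_succ, mul_comm (p ^ e)]; exact h4
  have h6 := Nat.dvd_of_mul_dvd_mul_left (pow_pos hp.pos e) h5
  exact hc (hp.dvd_of_dvd_pow h6)

/-- lower bound in the main case -/
lemma global_lower_even (hm : 0 < m) {p : ℕ} (hp : p.Prime) (hpm : p ∣ m) (hev : Even n) (hpn : p ∣ n) :
    ∃ b : Fin n → ZMod m, (X + 1 : ℤ[X]) ^ (primeTerm n p (m.factorization p)) ∈ ann b ∧
      (X + 1 : ℤ[X]) ^ (primeTerm n p (m.factorization p) - 1) ∉ ann b := by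
  have hn0 : n ≠ 0 := NeZero.ne n
  have hn2 : 2 ≤ n := by
    obtain ⟨r, hr⟩ := hev
    omega
  obtain ⟨j, n', hj, hn', hcop⟩ := exists_decomp hn0 hp hpn
  obtain ⟨e, he⟩ : ∃ e, m.factorization p = e + 1 := by
    have := (hp.dvd_iff_one_le_factorization hm.ne').1 hpm
    exact ⟨m.factorization p - 1, by omega⟩
  set q := p ^ (j + 1) with hqdef
  have hq : 0 < q := pow_pos hp.pos _
  have hn'0 : 0 < n' := by
    rcases Nat.eq_zero_or_pos n' with h | h
    · rw [h, mul_zero] at hn'; omega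
    · exact h
  have hevq : Even (q * n') := hn' ▸ hev
  obtain ⟨d, hd⟩ : ∃ d, d = m / p ^ (e + 1) := ⟨_, rfl⟩
  set M : ℤ := ((d : ℕ) : ℤ) with hM
  set b : Fin n → ZMod m := M • (aeval (S m n) (hpol q n') (e0 m n)) with hb
  have hbmem : ∀ f : ℤ[X], f ∈ ann b ↔ (M : ℤ[X]) * f * hpol q n' ∈ ann (e0 m n) := by
    intro f
    rw [hb, zsmul_mem_ann, mem_ann, mem_ann, ← Module.End.mul_apply, ← map_mul]
  have hpe : ((p : ℤ) : ℤ[X]) ^ (e + 1) ∈ ann b := by
    rw [hb, zsmul_mem_ann]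
    have h4 : (M : ℤ[X]) * ((p : ℤ) : ℤ[X]) ^ (e + 1) = (((m : ℕ) : ℤ) : ℤ[X]) := by
      have := Nat.ordProj_mul_ordCompl_eq_self m p
      rw [he] at this
      have h5 : d * p ^ (e + 1) = m := by rw [mul_comm, hd]; exact this
      rw [hM]
      exact_mod_cast congrArg (Nat.cast (R := ℤ[X])) h5
    rw [h4, intCast_mem_ann]
    exact m_zsmul _
  have hg : (X ^ q - (-1) ^ q : ℤ[X]) ∈ ann b := by
    rw [hbmem, mul_assoc, mul_comm (X ^ q - (-1) ^ q : ℤ[X]), hpol_mul hevq, ← hn']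
    exact Ideal.mul_mem_left _ _ (Xn_mem_ann _)
  refine ⟨b, ?_, ?_⟩
  · rw [primeTerm_even hev hpn hj, he]
    exact step_upper hp hpe hg
  · rw [primeTerm_even hev hpn hj, he]
    intro hcon
    obtain ⟨c, hc⟩ : p ∣ (p ^ (j + 1)).choose (p ^ j) :=
      dvd_choose_one hp (pow_pos hp.pos j).ne' (Nat.pow_lt_pow_right hp.one_lt (Nat.lt_succ_self j))
    have hpc : ¬ p ∣ c := by
      rintro ⟨d, rfl⟩
      have h1 : p ^ 2 ∣ (p ^ (j + 1)).choose (p ^ j) := ⟨d, by rw [hc]; ring⟩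
      have hle : p ^ j ≤ p ^ (j + 1) := Nat.pow_le_pow_right hp.pos (Nat.le_succ j)
      have h2 := Nat.factorization_choose_prime_pow_add_factorization (p := p) (n := j + 1) (k := p ^ j) hp hle
        (pow_pos hp.pos j).ne'
      rw [hp.factorization_pow, Finsupp.single_eq_same] at h2
      have h3 := (hp.pow_dvd_iff_le_factorization (Nat.choose_pos hle).ne').1 h1
      omega
    have h1 := lower hp _ (quot_rel hg) hc e
    rw [quot_p hpe, zero_dvd_iff, sub_eq_zero, quot_neg_pow.2 hcon] at h1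
    have h2 : Ideal.Quotient.mk (ann b) ((-(c : ℤ[X])) ^ e * (p : ℤ[X]) ^ e * (-(X + 1)) ^ (q - 1)) = 0 := by
      rw [h1]
      simp [map_mul, map_pow, hqdef]
    rw [Ideal.Quotient.eq_zero_iff_mem, hbmem] at h2
    have h3 : (((c ^ e * p ^ e * d : ℕ) : ℤ) : ℤ[X]) * ((X + 1) ^ (q - 1) * hpol q n') ∈ ann (e0 m n) := by
      have h4 := Ideal.mul_mem_left _ ((-1) ^ e * (-1) ^ (q - 1)) h2
      have h5 : ((-1 : ℤ[X]) ^ e * (-1) ^ (q - 1)) * ((M : ℤ[X]) * ((-(c : ℤ[X])) ^ e * (p : ℤ[X]) ^ e * (-(X + 1)) ^ (q - 1)) * hpol q n')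
          = (((c ^ e * p ^ e * d : ℕ) : ℤ) : ℤ[X]) * ((X + 1) ^ (q - 1) * hpol q n') := by
        rw [neg_pow (c : ℤ[X]), neg_pow (X + 1 : ℤ[X]), hM]
        have h6 : ((-1 : ℤ[X]) ^ e * (-1) ^ e) = 1 := by rw [← pow_add, (Even.add_self e).neg_one_pow]
        have h7 : ((-1 : ℤ[X]) ^ (q - 1) * (-1) ^ (q - 1)) = 1 := by rw [← pow_add, (Even.add_self (q - 1)).neg_one_pow]
        push_cast
        linear_combination ((d : ℕ) : ℤ[X]) * (c : ℤ[X]) ^ e * (p : ℤ[X]) ^ e * (X + 1) ^ (q - 1) * hpol q n' * ((-1 : ℤ[X]) ^ (q - 1) * (-1) ^ (q - 1)) * h6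
          + ((d : ℕ) : ℤ[X]) * (c : ℤ[X]) ^ e * (p : ℤ[X]) ^ e * (X + 1) ^ (q - 1) * hpol q n' * h7
      rw [h5] at h4
      exact h4
    have hX1 : ((X + 1) ^ (q - 1) : ℤ[X]).Monic := by
      have := (monic_X_add_C (1 : ℤ)).pow (q - 1)
      simpa using this
    have hX1d : ((X + 1) ^ (q - 1) : ℤ[X]).natDegree = q - 1 := by
      rw [natDegree_pow, show (X + 1 : ℤ[X]) = X + C 1 by simp, natDegree_X_add_C, mul_one]
    have hFm : ((X + 1) ^ (q - 1) * hpol q n' : ℤ[X]).Monic := hX1.mul (hpol_monic hq hevq hn'0)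
    have hFd : ((X + 1) ^ (q - 1) * hpol q n' : ℤ[X]).natDegree = n - 1 := by
      rw [hX1.natDegree_mul (hpol_monic hq hevq hn'0), hX1d]
      have := hpol_natDegree hq hevq hn'0
      rw [← hn'] at this
      omega
    rw [mem_ann, map_mul, Module.End.mul_apply, ← Polynomial.C_eq_intCast (R := ℤ), aeval_C] at h3
    have h8 := congrFun h3 (Fin.ofNat n 1)
    simp only [algebraMap_int_eq, eq_intCast, Module.End.intCast_apply, Pi.smul_apply, Pi.zero_apply] at h8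
    rw [aeval_e0 (by rw [hFd]; omega) hn2] at h8
    have h9 : ((X + 1) ^ (q - 1) * hpol q n' : ℤ[X]).coeff (n - 1) = 1 := by
      rw [← hFd]; exact hFm.coeff_natDegree
    rw [h9] at h8
    refine natCast_ne_zero hm hp he hpc hd ?_
    simpa using h8

/-- lower bound for `p = 2`, `n` odd -/
lemma global_lower_odd (hm : 0 < m) (hpm : 2 ∣ m) :
    ∃ b : Fin n → ZMod m, (X + 1 : ℤ[X]) ^ (m.factorization 2) ∈ ann b ∧
      (X + 1 : ℤ[X]) ^ (m.factorization 2 - 1) ∉ ann b := by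
  obtain ⟨e, he⟩ : ∃ e, m.factorization 2 = e + 1 := by
    have := (Nat.prime_two.dvd_iff_one_le_factorization hm.ne').1 hpm
    exact ⟨m.factorization 2 - 1, by omega⟩
  obtain ⟨d, hd⟩ : ∃ d, d = m / 2 ^ (e + 1) := ⟨_, rfl⟩
  have hdm : 2 ^ (e + 1) * d = m := by
    rw [hd, ← he]; exact Nat.ordProj_mul_ordCompl_eq_self m 2
  set b : Fin n → ZMod m := fun _ => (d : ZMod m) with hb
  have hpow : ∀ k : ℕ, aeval (S m n) ((X + 1 : ℤ[X]) ^ k) b = fun _ => ((2 ^ k * d : ℕ) : ZMod m) := by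
    intro k
    induction k with
    | zero => simp [hb]
    | succ k ih =>
      rw [pow_succ', map_mul, Module.End.mul_apply, ih, ← T_eq]
      funext i
      rw [T]
      push_cast
      ring
  rw [he]
  refine ⟨b, ?_, ?_⟩
  · rw [mem_ann, hpow, hdm]
    funext i
    simp
  · rw [mem_ann, hpow, Nat.add_sub_cancel]
    intro h
    have h1 := congrFun h 0
    have h2 := natCast_ne_zero (c := 1) hm Nat.prime_two he (by norm_num) hd
    simp only [one_pow, one_mul] at h2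
    exact h2 h1

/-! ### Pre-periods -/

lemma period_set_nonempty {a : Fin n → ZMod m} {N Q : ℕ} (hQ : 0 < Q) (h : T^[N + Q] a = T^[N] a) :
    Q ∈ {P | 0 < P ∧ ∃ N, 0 < N ∧ ∀ k, N ≤ k → T^[k + P] a = T^[k] a} := by
  refine ⟨hQ, N + 1, Nat.succ_pos N, fun k hk => ?_⟩
  obtain ⟨r, rfl⟩ := Nat.exists_eq_add_of_le (show N ≤ k by omega)
  rw [show N + r + Q = r + (N + Q) by ring, Function.iterate_add_apply, h, ← Function.iterate_add_apply]
  congr 1
  ring

lemma iter_mul {a : Fin n → ZMod m} {N Q : ℕ} (h : ∀ k, N ≤ k → T^[k + Q] a = T^[k] a) (i : ℕ) :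
    ∀ k, N ≤ k → T^[k + i * Q] a = T^[k] a := by
  induction i with
  | zero => intro k _; simp
  | succ i ih =>
    intro k hk
    rw [Nat.add_one_mul, ← add_assoc, h (k + i * Q) (by omega), ih k hk]

lemma prePeriod_le {a : Fin n → ZMod m} {N Q : ℕ} (hN : 0 < N) (hQ : 0 < Q) (h : T^[N + Q] a = T^[N] a) :
    prePeriod a ≤ N := by
  have h1 := period_set_nonempty hQ h
  have h2 : cycleLength a ∈ {P | 0 < P ∧ ∃ N, 0 < N ∧ ∀ k, N ≤ k → T^[k + P] a = T^[k] a} := Nat.sInf_mem ⟨Q, h1⟩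
  obtain ⟨hP, N1, hN1, h3⟩ := h2
  refine Nat.sInf_le ⟨hN, fun k hk => ?_⟩
  have h4 : ∀ k, N ≤ k → T^[k + Q] a = T^[k] a := by
    intro k hk
    obtain ⟨r, rfl⟩ := Nat.exists_eq_add_of_le hk
    rw [show N + r + Q = r + (N + Q) by ring, Function.iterate_add_apply, h, ← Function.iterate_add_apply]
    congr 1
    ring
  have h5 := iter_mul h4 N1
  rw [← h5 (k + cycleLength a) (by omega), ← h5 k hk,
    show k + cycleLength a + N1 * Q = (k + N1 * Q) + cycleLength a by ring]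
  refine h3 _ ?_
  have : N1 ≤ N1 * Q := Nat.le_mul_of_pos_right _ hQ
  omega

lemma prePeriod_mem {a : Fin n → ZMod m} {N Q : ℕ} (hQ : 0 < Q) (h : T^[N + Q] a = T^[N] a) :
    0 < cycleLength a ∧ 0 < prePeriod a ∧ ∀ k, prePeriod a ≤ k → T^[k + cycleLength a] a = T^[k] a := by
  have h1 := period_set_nonempty hQ h
  have h2 : cycleLength a ∈ {P | 0 < P ∧ ∃ N, 0 < N ∧ ∀ k, N ≤ k → T^[k + P] a = T^[k] a} := Nat.sInf_mem ⟨Q, h1⟩
  obtain ⟨hP, N1, hN1, h3⟩ := h2
  have h4 : prePeriod a ∈ {N | 0 < N ∧ ∀ k, N ≤ k → T^[k + cycleLength a] a = T^[k] a} :=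
    Nat.sInf_mem ⟨N1, hN1, h3⟩
  exact ⟨hP, h4.1, h4.2⟩

lemma exists_period (hm : 0 < m) (a : Fin n → ZMod m) : ∃ Q, 0 < Q ∧ T^[Nmax m n + Q] a = T^[Nmax m n] a := by
  have : NeZero m := ⟨hm.ne'⟩
  obtain ⟨i, j, hij, h⟩ := Finite.exists_ne_map_eq_of_infinite (fun k : ℕ => T^[k] a)
  have key : ∀ i j : ℕ, i < j → T^[i] a = T^[j] a → ∃ Q, 0 < Q ∧ T^[Nmax m n + Q] a = T^[Nmax m n] a := by
    intro i j hij h
    refine ⟨j - i, by omega, ?_⟩
    have h1 : (X + 1 : ℤ[X]) ^ i ∈ ann (aeval (S m n) ((X + 1 : ℤ[X]) ^ (j - i)) a - a) := by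
      rw [mem_ann, map_sub, ← Module.End.mul_apply, ← map_mul, ← pow_add, show i + (j - i) = j by omega,
        ← T_iter, ← T_iter, h, sub_self]
    have h2 := global_upper hm h1
    rw [mem_ann, map_sub, ← Module.End.mul_apply, ← map_mul, ← pow_add, ← T_iter, ← T_iter, sub_eq_zero] at h2
    exact h2
  rcases lt_or_gt_of_ne hij with h1 | h1
  · exact key i j h1 h
  · exact key j i h1 h.symm

lemma le_prePeriod (hm : 0 < m) {b : Fin n → ZMod m} {N : ℕ}
    (h1 : (X + 1 : ℤ[X]) ^ N ∈ ann b) (h2 : (X + 1 : ℤ[X]) ^ (N - 1) ∉ ann b) : N ≤ prePeriod b := by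
  obtain ⟨Q, hQ, hper⟩ := exists_period hm b
  obtain ⟨hP, hpos, h3⟩ := prePeriod_mem hQ hper
  by_contra hlt
  have hlt' : prePeriod b ≤ N - 1 := by omega
  have h4 := iter_mul h3 N (N - 1) hlt'
  have h5 : T^[N - 1 + N * cycleLength b] b = 0 := by
    rw [T_iter]
    have : (X + 1 : ℤ[X]) ^ (N - 1 + N * cycleLength b) ∈ ann b := by
      refine Ideal.mem_of_dvd _ (pow_dvd_pow _ ?_) h1
      have : N ≤ N * cycleLength b := Nat.le_mul_of_pos_right _ hP
      omega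
    exact this
  rw [h5, T_iter] at h4
  exact h2 h4.symm

end action

/-- **Answer.** For all `m, n ≥ 1` the largest pre-period of the cyclic sum map on `(ℤ/m)^n` is
`Nmax m n = max(1, max_{p ∣ m} primeTerm n p v_p(m))`. -/
theorem result (m n : ℕ) (hm : 0 < m) [NeZero n] :
    IsGreatest {N : ℕ | ∃ a : Fin n → ZMod m, prePeriod a = N} (Nmax m n) := by
  have hup : ∀ a : Fin n → ZMod m, prePeriod a ≤ Nmax m n := by
    intro a
    obtain ⟨Q, hQ, h⟩ := exists_period hm a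
    exact prePeriod_le (lt_of_lt_of_le one_pos (le_max_left _ _)) hQ h
  refine ⟨?_, ?_⟩
  · -- attained
    have hex : ∃ a : Fin n → ZMod m, Nmax m n ≤ prePeriod a := by
      rcases le_or_gt (Nmax m n) 1 with h1 | h1
      · obtain ⟨Q, hQ, h⟩ := exists_period (n := n) hm 0
        exact ⟨0, h1.trans (prePeriod_mem hQ h).2.1⟩
      · have h2 : Nmax m n = m.primeFactors.sup fun p => primeTerm n p (m.factorization p) := by
          rw [Nmax] at h1 ⊢
          exact max_eq_right (by omega)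
        have hne : m.primeFactors.Nonempty := by
          rw [Finset.nonempty_iff_ne_empty]
          intro h
          rw [h2, h] at h1
          simp at h1
        obtain ⟨p, hp, hpe⟩ := Finset.exists_mem_eq_sup m.primeFactors hne fun p => primeTerm n p (m.factorization p)
        rw [hpe] at h2
        have hpp := Nat.prime_of_mem_primeFactors hp
        have hpm := Nat.dvd_of_mem_primeFactors hp
        by_cases hc : Even n ∧ p ∣ n
        · obtain ⟨b, hb1, hb2⟩ := global_lower_even hm hpp hpm hc.1 hc.2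
          refine ⟨b, ?_⟩
          rw [h2]
          exact le_prePeriod hm hb1 hb2
        · rw [primeTerm, if_neg hc] at h2
          by_cases hp2 : p = 2
          · rw [if_pos hp2] at h2
            subst hp2
            obtain ⟨b, hb1, hb2⟩ := global_lower_odd (n := n) hm hpm
            refine ⟨b, ?_⟩
            rw [h2]
            exact le_prePeriod hm hb1 hb2
          · rw [if_neg hp2] at h2
            omega
    obtain ⟨a, ha⟩ := hex
    exact ⟨a, le_antisymm (hup a) ha⟩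
  · rintro _ ⟨a, rfl⟩
    exact hup a

end Pool.Agent.Results.MP_6a5936_nt.NmaxFormula
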